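import Pool.Agent.H568.PH.Stm

/-! Project PH (helper568), task TT (helper685): bilinear sums over the triangle function. -/

open Finset Filter Topology Pool.Agent.N792 Pool.Agent.H568.PH

namespace Pool.Agent.H685.PH

open Pool.Agent.H469R2.NK (e norm_e e_add)

theorem sqrt_id (r t a : ℕ) : √(((r * t : ℕ) : ℝ) / a) = √(r : ℝ) * √(t : ℝ) / √(a : ℝ) := by
  rw [Real.sqrt_div (Nat.cast_nonneg _), Nat.cast_mul, Real.sqrt_mul (Nat.cast_nonneg _)]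

theorem tt_half (h0 : S_SP) (h1 : S_BL) (h2 : S_Q5) (a m : ℕ) (ha : 1 ≤ a) (hm : 1 ≤ m) :
    ∃ C3 : ℝ, 0 < C3 ∧ ∀ x J K : ℕ, 2 ≤ x → 1 ≤ J → J ≤ K →
    (J : ℝ) * K ≤ m * (x : ℝ) ^ 2 → ∀ α β : ℕ → ℝ, (∀ r, |α r| ≤ 1) → (∀ s, |β s| ≤ 1) →
    ∀ β0 δ : ℝ, 1 / (x : ℝ) ≤ δ → δ ≤ 1 / 2 →
    |∑ r ∈ Ioc J (2 * J), ∑ s ∈ Ioc K (2 * K),
      α r * β s * (tri δ (√(((r * s : ℕ) : ℝ) / a) - β0) - δ)| ≤
      C3 * Real.log x * ((x : ℝ) ^ (3 / 2 : ℝ) + x * √(δ * K)) := by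
  obtain ⟨C2, hC2, H2⟩ := h1 h0 a m ha hm
  have hm1 : (1 : ℝ) ≤ m := by exact_mod_cast hm
  have hlm : 0 ≤ Real.log m := Real.log_nonneg hm1
  set Cl : ℝ := 8 + 2 * Real.log m with hCl
  have hCl0 : 0 < Cl := by positivity
  refine ⟨100 * (C2 * Cl + 2 * m), by positivity, ?_⟩
  intro x J K hx hJ hJK hJKm α β hα hβ β0 δ hδ1 hδ2
  have hx2 : (2 : ℝ) ≤ x := by exact_mod_cast hx
  have hx0 : (0 : ℝ) < x := by linarith
  have hJ1 : (1 : ℝ) ≤ J := by exact_mod_cast hJ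
  have hK1 : (1 : ℝ) ≤ K := by exact_mod_cast hJ.trans hJK
  have hL : 1 / 2 ≤ Real.log x := by
    have q1 : Real.log 2 ≤ Real.log x := Real.log_le_log (by norm_num) hx2
    have q2 := Real.log_two_gt_d9
    linarith
  have hL0 : 0 < Real.log x := by linarith
  have hδ0 : 0 < δ := lt_of_lt_of_le (by positivity) hδ1
  have hlog : ∀ H : ℕ, 1 ≤ H → H ≤ x ^ 4 → 1 + Real.log (H * J) ≤ Cl * Real.log x := by
    intro H hH hHx
    have q1 : (H : ℝ) ≤ (x : ℝ) ^ 4 := by exact_mod_cast hHx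
    have q2 : (J : ℝ) ≤ m * (x : ℝ) ^ 2 := (le_mul_of_one_le_right (by positivity) hK1).trans hJKm
    have q3 : (H : ℝ) * J ≤ m * (x : ℝ) ^ 6 := by
      calc (H : ℝ) * J ≤ (x : ℝ) ^ 4 * (m * (x : ℝ) ^ 2) :=
            mul_le_mul q1 q2 (by positivity) (by positivity)
        _ = m * (x : ℝ) ^ 6 := by ring
    have hH1 : (1 : ℝ) ≤ H := by exact_mod_cast hH
    have q4 : Real.log (H * J) ≤ Real.log m + 6 * Real.log x := by
      have q5 := Real.log_le_log (by positivity) q3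
      have q7 : Real.log ((m : ℝ) * (x : ℝ) ^ 6) = Real.log m + 6 * Real.log x := by
        rw [Real.log_mul (by positivity) (by positivity), Real.log_pow]
        push_cast
        ring
      rw [q7] at q5
      exact q5
    have q6 : Real.log m ≤ 2 * Real.log m * Real.log x := by nlinarith
    rw [hCl]
    nlinarith
  set s : Finset (ℕ × ℕ) := Ioc J (2 * J) ×ˢ Ioc K (2 * K) with hs
  set w : ℕ × ℕ → ℝ := fun i => α i.1 * β i.2 with hw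
  set θ : ℕ × ℕ → ℝ := fun i => √(((i.1 * i.2 : ℕ) : ℝ) / a) - β0 with hθ
  have hsum : ∀ h : ℕ, ∑ i ∈ s, (w i : ℂ) * e (h * θ i) =
      e (-(h * β0)) * ∑ r ∈ Ioc J (2 * J), ∑ t ∈ Ioc K (2 * K),
        (α r : ℂ) * (β t : ℂ) * e (h / √(a : ℝ) * (√(r : ℝ) * √(t : ℝ))) := by
    intro h
    rw [hs, sum_product, mul_sum]
    refine sum_congr rfl fun r _ => ?_
    rw [mul_sum]
    refine sum_congr rfl fun t _ => ?_
    show ((α r * β t : ℝ) : ℂ) * e (h * (√(((r * t : ℕ) : ℝ) / a) - β0)) = _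
    have q1 : (h : ℝ) * (√(((r * t : ℕ) : ℝ) / a) - β0) =
        -(h * β0) + h / √(a : ℝ) * (√(r : ℝ) * √(t : ℝ)) := by
      rw [sqrt_id]
      ring
    rw [q1, e_add]
    push_cast
    ring
  have hblk : ∀ (H : ℕ) (ω : ℕ → ℂ), 1 ≤ H → H ≤ x ^ 4 → (∀ h, ‖ω h‖ ≤ 1) →
      ‖∑ h ∈ Ico H (2 * H), ω h * ∑ i ∈ s, (w i : ℂ) * e (h * θ i)‖ ≤
        C2 * Cl * Real.log x * (x : ℝ) ^ (3 / 2 : ℝ) * H +
          C2 * Cl * Real.log x * (x * √(K : ℝ)) * √(H : ℝ) := by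
    intro H ω hH hHx hω
    have q1 := H2 x J K (by omega) hJ hJK hJKm (fun r => (α r : ℂ)) (fun t => (β t : ℂ))
      (fun r => by rw [Complex.norm_real]; exact hα r)
      (fun t => by rw [Complex.norm_real]; exact hβ t) H (fun h => ω h * e (-(h * β0))) hH
      (fun h => by rw [norm_mul, norm_e, mul_one]; exact hω h)
    have q2 : ∑ h ∈ Ico H (2 * H), ω h * ∑ i ∈ s, (w i : ℂ) * e (h * θ i) =
        ∑ h ∈ Ico H (2 * H), (ω h * e (-(h * β0))) * ∑ r ∈ Ioc J (2 * J),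
          ∑ t ∈ Ioc K (2 * K), (α r : ℂ) * (β t : ℂ) *
            e (h / √(a : ℝ) * (√(r : ℝ) * √(t : ℝ))) := by
      refine sum_congr rfl fun h _ => ?_
      rw [hsum, mul_assoc]
    rw [q2]
    refine q1.trans ?_
    have q3 : √((H : ℝ) * K) = √(H : ℝ) * √(K : ℝ) := Real.sqrt_mul (Nat.cast_nonneg _) _
    rw [q3]
    have q4 : C2 * (1 + Real.log (H * J)) * ((x : ℝ) ^ (3 / 2 : ℝ) * H +
        x * (√(H : ℝ) * √(K : ℝ))) ≤ C2 * (Cl * Real.log x) * ((x : ℝ) ^ (3 / 2 : ℝ) * H +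
        x * (√(H : ℝ) * √(K : ℝ))) := by
      refine mul_le_mul_of_nonneg_right (mul_le_mul_of_nonneg_left (hlog H hH hHx) hC2.le) ?_
      positivity
    refine q4.trans (le_of_eq ?_)
    ring
  have htriv : ∀ h : ℕ, ‖∑ i ∈ s, (w i : ℂ) * e (h * θ i)‖ ≤ (J : ℝ) * K := by
    intro h
    refine (norm_sum_le _ _).trans ?_
    have q1 : ∑ i ∈ s, ‖(w i : ℂ) * e (h * θ i)‖ ≤ ∑ _i ∈ s, (1 : ℝ) := by
      refine sum_le_sum fun i _ => ?_
      rw [norm_mul, norm_e, mul_one, Complex.norm_real, Real.norm_eq_abs]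
      simp only [hw]
      rw [abs_mul]
      exact mul_le_one₀ (hα _) (abs_nonneg _) (hβ _)
    refine q1.trans (le_of_eq ?_)
    rw [sum_const, nsmul_eq_mul, mul_one, hs, card_product, Nat.card_Ioc, Nat.card_Ioc,
      Nat.cast_mul]
    have e1 : 2 * J - J = J := by omega
    have e2 : 2 * K - K = K := by omega
    rw [e1, e2]
  have hfin := h2 s w θ δ (C2 * Cl * Real.log x * (x : ℝ) ^ (3 / 2 : ℝ))
    (C2 * Cl * Real.log x * (x * √(K : ℝ))) ((J : ℝ) * K) (x ^ 4) hδ0 hδ2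
    (Nat.one_le_pow _ _ (by omega)) (by positivity) (by positivity) (by positivity) hblk htriv
  have hlhs : ∑ r ∈ Ioc J (2 * J), ∑ t ∈ Ioc K (2 * K),
      α r * β t * (tri δ (√(((r * t : ℕ) : ℝ) / a) - β0) - δ) =
      ∑ i ∈ s, w i * tri δ (θ i) - δ * ∑ i ∈ s, w i := by
    rw [mul_sum, ← sum_sub_distrib, hs, sum_product]
    refine sum_congr rfl fun r _ => sum_congr rfl fun t _ => ?_
    simp only [hw, hθ]
    ring
  rw [hlhs]
  refine hfin.trans ?_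
  have hx32 : 1 ≤ (x : ℝ) ^ (3 / 2 : ℝ) := Real.one_le_rpow (by linarith) (by norm_num)
  have hD : (J : ℝ) * K / (δ * ((x ^ 4 : ℕ) : ℝ)) ≤
      2 * m * (Real.log x * (x : ℝ) ^ (3 / 2 : ℝ)) := by
    rw [div_le_iff₀ (by positivity)]
    have q1 : 1 ≤ δ * x := by
      rw [div_le_iff₀ hx0] at hδ1
      exact hδ1
    have q2 : 1 ≤ 2 * (Real.log x * (x : ℝ) ^ (3 / 2 : ℝ)) := by nlinarith
    have q3 : (m : ℝ) * (x : ℝ) ^ 2 ≤ m * (x : ℝ) ^ 2 * ((δ * x) * x) := by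
      refine le_mul_of_one_le_right (by positivity) ?_
      nlinarith
    push_cast
    calc (J : ℝ) * K ≤ m * (x : ℝ) ^ 2 := hJKm
      _ ≤ m * (x : ℝ) ^ 2 * ((δ * x) * x) := q3
      _ = m * (δ * (x : ℝ) ^ 4) * 1 := by ring
      _ ≤ m * (δ * (x : ℝ) ^ 4) * (2 * (Real.log x * (x : ℝ) ^ (3 / 2 : ℝ))) :=
          mul_le_mul_of_nonneg_left q2 (by positivity)
      _ = 2 * m * (Real.log x * (x : ℝ) ^ (3 / 2 : ℝ)) * (δ * (x : ℝ) ^ 4) := by ring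
  have hsq : √(δ * (K : ℝ)) = √δ * √(K : ℝ) := Real.sqrt_mul hδ0.le _
  rw [hsq]
  have hpos : 0 ≤ 2 * (m : ℝ) * Real.log x * (x * (√δ * √(K : ℝ))) := by positivity
  have hfinal : 100 * (C2 * Cl * Real.log x * (x : ℝ) ^ (3 / 2 : ℝ) +
      C2 * Cl * Real.log x * (x * √(K : ℝ)) * √δ +
      2 * m * (Real.log x * (x : ℝ) ^ (3 / 2 : ℝ))) + 100 *
        (2 * (m : ℝ) * Real.log x * (x * (√δ * √(K : ℝ)))) =
      100 * (C2 * Cl + 2 * m) * Real.log x * ((x : ℝ) ^ (3 / 2 : ℝ) + x * (√δ * √(K : ℝ))) := by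
    ring
  linarith

theorem t_TT : S_TT := by
  intro h0 h1 h2 a m ha hm
  obtain ⟨C3, hC3, H⟩ := tt_half h0 h1 h2 a m ha hm
  refine ⟨C3, hC3, fun x J K hx hJ hK hJK α β hα hβ β0 δ hδ1 hδ2 => ?_⟩
  rcases le_total J K with h | h
  · have q1 := H x J K hx hJ h hJK α β hα hβ β0 δ hδ1 hδ2
    rw [max_eq_right h]
    exact q1
  · have q1 := H x K J hx hK h (by rw [mul_comm]; exact hJK) β α hβ hα β0 δ hδ1 hδ2
    rw [max_eq_left h, sum_comm]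
    refine (le_of_eq ?_).trans q1
    refine congrArg _ (sum_congr rfl fun t _ => sum_congr rfl fun r _ => ?_)
    rw [Nat.mul_comm r t, mul_comm (α r) (β t)]

end Pool.Agent.H685.PH
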